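import Pool.Agent.Y172.Sec
import Pool.Agent.Y172.UpB
import Pool.Agent.W602.GT.PsefDefs
import Pool.Agent.Helper386.D5V.Helper386_FF_RR

/-!
The functions with poles bounded by multiples of a divisor on a normal projective variety: bounds for
their orders at all places, from below and from above.
-/

set_option autoImplicit false
set_option linter.overlappingInstances false

namespace Pool.Agent.W2helper38.NU

open FF Pool.Agent.W602.GT Pool.Agent.Y172 Pool.Agent.W603.LV

variable {K : Type} [Field K] [Algebra ℂ K] {N : ℕ} {z : Fin (N + 1) → K}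

/-- The functions with poles bounded by `m A`, where `A` is the divisor generated by `S`, on the
variety with the generic point `z`. -/
def Lin (z : Fin (N + 1) → K) (S : Finset K) (m : ℕ) : Set K :=
  {g | ∀ P, IsPrimeDivisor z P → TwReg P S m g}

theorem lin_chart (hz : NormalModel z) (S : Finset K) {i : Fin (N + 1)} :
    ∃ s ∈ chart z i, s ≠ 0 ∧ ∀ (m : ℕ) (g : K), g ∈ Lin z S m → ∀ Q, Centred z i Q →
      g * s ^ m ∈ localRing z Q := by
  classical
  let T : Set (Place ℂ K) := {P | IsPrimeDivisor z P ∧ Centred z i P ∧ ∃ a ∈ S, a ≠ 0 ∧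
    P.ord a ≠ 0}
  have hT : T.Finite := by
    refine (Set.Finite.biUnion (t := fun a : K => {P | IsPrimeDivisor z P ∧ a ≠ 0 ∧ P.ord a ≠ 0})
      S.finite_toSet fun a _ => ?_).subset ?_
    · by_cases ha : a = 0
      · refine Set.finite_empty.subset ?_
        rintro P ⟨-, h, -⟩
        exact absurd ha h
      · refine (finite_ord hz ha).subset ?_
        rintro P ⟨h1, -, h2⟩
        exact ⟨h1, h2⟩
    · rintro P ⟨h1, -, a, ha, ha0, h2⟩
      exact Set.mem_biUnion (show a ∈ (S : Set K) from ha) ⟨h1, ha0, h2⟩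
  obtain ⟨s, hs, hs0, h⟩ := exists_high (y := z) (j := i) hT (fun P hP => hP.2.1)
    (fun P hP => hP.1) (fun P => S.sup fun a => (P.ord a).natAbs)
  refine ⟨s, hs, hs0, fun m g hg Q hQ => mem_localRing_of_reg hz fun P hP hPQ => ?_⟩
  have hc := hPQ.centred hQ
  have hs1 := (P.reg_iff hs0).1 (hc.reg s hs)
  rcases hg P hP with hg0 | ⟨a, ha, ha0, hag⟩
  · rw [hg0, zero_mul]
    exact P.reg_zero
  by_cases hg0 : g = 0
  · rw [hg0, zero_mul]
    exact P.reg_zero
  right
  rw [P.ord_mul hg0 (pow_ne_zero _ hs0), P.ord_pow]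
  have h1 : -P.ord a ≤ P.ord s := by
    by_cases h0 : P.ord a = 0
    · rw [h0, neg_zero]
      exact hs1
    · have h2 := h P ⟨hP, hc, a, ha, ha0, h0⟩
      have h3 : (P.ord a).natAbs ≤ S.sup fun a => (P.ord a).natAbs :=
        Finset.le_sup (f := fun a => (P.ord a).natAbs) ha
      have h4 : -P.ord a ≤ ((P.ord a).natAbs : ℤ) := by omega
      have h5 : ((P.ord a).natAbs : ℤ) ≤ ((S.sup fun a => (P.ord a).natAbs : ℕ) : ℤ) := by
        exact_mod_cast h3
      linarith
  have hm : (0 : ℤ) ≤ m := Int.natCast_nonneg _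
  nlinarith

/-- lower bound for the orders at a place -/
theorem lin_all (hz : NormalModel z) (S : Finset K) (P : Place ℂ K) :
    ∃ C : ℕ, ∀ (m : ℕ) (g : K), g ∈ Lin z S m → Ge P (-((C * m : ℕ) : ℤ)) g := by
  obtain ⟨i, hi⟩ := exists_centred hz P
  obtain ⟨s, hs, hs0, h⟩ := lin_chart hz S (i := i)
  have hs1 := (P.reg_iff hs0).1 (hi.reg s hs)
  refine ⟨(P.ord s).toNat, fun m g hg => ?_⟩
  have h1 := localRing_reg (h m g hg P hi)
  by_cases h0 : g = 0
  · exact Or.inl h0
  right
  have h2 := h1.resolve_left (mul_ne_zero h0 (pow_ne_zero _ hs0))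
  rw [P.ord_mul h0 (pow_ne_zero _ hs0), P.ord_pow] at h2
  push_cast
  rw [Int.toNat_of_nonneg hs1]
  linarith

/-- a finite set of functions which controls the regularity -/
theorem lin_fin (hz : NormalModel z) (S : Finset K) :
    ∃ S0 : Finset K, ∀ P : Place ℂ K, (∀ s ∈ S0, P.Reg s) → ∀ (m : ℕ) (g : K), g ∈ Lin z S m →
      P.Reg g := by
  classical
  obtain ⟨i, hi⟩ := hz.ne
  obtain ⟨s, hs, hs0, h⟩ := lin_chart hz S (i := i)
  refine ⟨insert s⁻¹ (Finset.univ.image fun j => z j / z i), fun P hP m g hg => ?_⟩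
  have hc : Centred z i P := ⟨hi, fun j => hP _ (Finset.mem_insert_of_mem
    (Finset.mem_image_of_mem _ (Finset.mem_univ j)))⟩
  have h1 := localRing_reg (h m g hg P hc)
  have h2 : P.Reg (s⁻¹ ^ m) := by
    have h3 := hP _ (Finset.mem_insert_self _ _)
    right
    rw [P.ord_pow]
    have := (P.reg_iff (inv_ne_zero hs0)).1 h3
    positivity
  have e : g = g * s ^ m * s⁻¹ ^ m := by
    rw [mul_assoc, ← mul_pow, mul_inv_cancel₀ hs0, one_pow, mul_one]
  rw [e]
  exact P.reg_mul h1 h2

/-- a place which is trivial on a subfield -/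
def up {k1 : IntermediateField ℂ K} (P : Place ℂ K)
    (h : ∀ c : k1, c ≠ 0 → P.ord (c : K) = 0) : Place k1 K where
  ord := P.ord
  ord_zero := P.ord_zero
  ord_mul := P.ord_mul
  ord_add := P.ord_add
  ord_const := fun {c} hc => h c hc
  surj := P.surj

/-- a place over a subfield -/
def down {k1 : IntermediateField ℂ K} (P : Place k1 K) : Place ℂ K where
  ord := P.ord
  ord_zero := P.ord_zero
  ord_mul := P.ord_mul
  ord_add := P.ord_add
  ord_const := fun {c} hc => by
    rw [IsScalarTower.algebraMap_apply ℂ k1 K]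
    exact P.ord_const ((map_ne_zero _).2 hc)
  surj := P.surj

/-- a function field over the field generated by all but one of the elements of a basis -/
theorem isFF_adjoin [Algebra.EssFiniteType ℂ K] {n m : ℕ} (hn : Algebra.trdeg ℂ K = n)
    (hm : m + 1 = n) {u : Fin m → K} (hind : AlgebraicIndependent ℂ u) :
    IsFF (IntermediateField.adjoin ℂ (Set.range u)) K := by
  refine ⟨Algebra.EssFiniteType.of_comp ℂ _ K, ?_⟩
  have h1 : Algebra.trdeg ℂ (IntermediateField.adjoin ℂ (Set.range u)) = (m : Cardinal) := by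
    have h2 := (hind.aevalEquivField).trdeg_eq
    have h3 := trdeg_add_eq ℂ (MvPolynomial (Fin m) ℂ)
      (A := FractionRing (MvPolynomial (Fin m) ℂ))
    have h4 : Algebra.IsAlgebraic (MvPolynomial (Fin m) ℂ)
        (FractionRing (MvPolynomial (Fin m) ℂ)) :=
      IsLocalization.isAlgebraic _ (nonZeroDivisors _)
    rw [trdeg_eq_zero (R := MvPolynomial (Fin m) ℂ), add_zero,
      MvPolynomial.trdeg_of_isDomain] at h3
    rw [← h2, ← h3]
    simp
  have h3 := trdeg_add_eq ℂ (IntermediateField.adjoin ℂ (Set.range u)) (A := K)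
  rw [h1, hn] at h3
  have h4 : Algebra.trdeg (IntermediateField.adjoin ℂ (Set.range u)) K < Cardinal.aleph0 := by
    refine lt_of_le_of_lt ?_ (Cardinal.natCast_lt_aleph0 (n := n))
    rw [← h3]
    exact self_le_add_left _ _
  obtain ⟨e, he⟩ := Cardinal.lt_aleph0.1 h4
  rw [he] at h3 ⊢
  have h5 : m + e = n := by exact_mod_cast h3
  have h6 : e = 1 := by omega
  rw [h6]
  simp

/-- upper bound for the orders at a divisorial place -/
theorem lin_up (hz : NormalModel z) {n : ℕ} (hn : Algebra.trdeg ℂ K = n) (hn1 : 1 ≤ n)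
    (S : Finset K) {Q : Place ℂ K} (hQ : Divisorial n Q) :
    ∃ C : ℕ, ∀ (m : ℕ) (g : K), g ∈ Lin z S m → g ≠ 0 → Q.ord g ≤ (C * m : ℕ) := by
  classical
  obtain ⟨u, hu⟩ := hQ
  have hess := hz.ess
  have hind : AlgebraicIndependent ℂ u := by
    rw [algebraicIndependent_iff]
    intro F hF
    by_contra h0
    exact (hu F h0).1 hF
  let k1 := IntermediateField.adjoin ℂ (Set.range u)
  have hc0 : CharZero k1 := inferInstance
  have hFF : IsFF k1 K := isFF_adjoin hn (by omega) hind
  obtain ⟨S0, hS0⟩ := lin_fin hz S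
  choose C hC using fun P : Place k1 K => lin_all hz S (down P)
  let T : Finset (Place k1 K) := S0.biUnion fun s => (finite_support (k := k1) s).toFinset
  have hT : ∀ v : Place k1 K, v ∉ T → ∀ (m : ℕ) (g : K), g ∈ Lin z S m → g ≠ 0 →
      0 ≤ v.ord g := by
    intro v hv m g hg hg0
    have h1 : (down v).Reg g := hS0 (down v) (fun s hs => by
      by_contra hcon
      apply hv
      simp only [T, Finset.mem_biUnion, Set.Finite.mem_toFinset, Set.mem_ofPred_eq]
      refine ⟨s, hs, fun h => hcon (Or.inr ?_)⟩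
      change 0 ≤ v.ord s
      rw [h]) m g hg
    exact ((down v).reg_iff hg0).1 h1
  let Q' : Place k1 K := up Q (by
    rintro ⟨c, hc⟩ hc0
    rw [IntermediateField.mem_adjoin_range_iff] at hc
    obtain ⟨r, s, rfl⟩ := hc
    have hr : r ≠ 0 := by
      rintro rfl
      apply hc0
      apply Subtype.ext
      simp
    have hs : s ≠ 0 := by
      rintro rfl
      apply hc0
      apply Subtype.ext
      simp
    change Q.ord _ = 0
    rw [Q.ord_div (hu r hr).1 (hu s hs).1, (hu r hr).2, (hu s hs).2, sub_zero])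
  refine ⟨∑ v ∈ T, C v * v.deg, fun m g hg hg0 => ?_⟩
  have hsum := ddeg_divisor (k := k1) g
  have hsub : (divisor k1 g).support ⊆ insert Q' (T ∪ (divisor k1 g).support) :=
    (Finset.subset_union_right).trans (Finset.subset_insert _ _)
  unfold ddeg at hsum
  rw [Finsupp.sum_of_support_subset _ hsub _ (fun _ _ => by simp)] at hsum
  set U := insert Q' (T ∪ (divisor k1 g).support) with hU
  have hQU : Q' ∈ U := Finset.mem_insert_self _ _
  rw [← Finset.add_sum_erase _ _ hQU] at hsum
  have hdeg : ∀ v : Place k1 K, (1 : ℤ) ≤ v.deg := fun v => by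
    have := Place.deg_pos v
    exact_mod_cast this
  have hlow : ∀ v ∈ U.erase Q', -(if v ∈ T then ((C v * m : ℕ) : ℤ) * v.deg else 0) ≤
      divisor k1 g v * v.deg := by
    intro v _
    rw [divisor_apply]
    have hd := hdeg v
    split_ifs with hv
    · have h1 := (hC v m g hg).resolve_left hg0
      change -((C v * m : ℕ) : ℤ) ≤ v.ord g at h1
      nlinarith
    · have h1 := hT v hv m g hg hg0
      rw [neg_zero]
      positivity
  have h1 := Finset.sum_le_sum hlow
  have h2 : ∑ v ∈ U.erase Q', (if v ∈ T then ((C v * m : ℕ) : ℤ) * v.deg else 0) ≤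
      ∑ v ∈ T, ((C v * m : ℕ) : ℤ) * v.deg := by
    rw [← Finset.sum_filter]
    refine Finset.sum_le_sum_of_subset_of_nonneg (fun v hv => (Finset.mem_filter.1 hv).2)
      fun v _ _ => ?_
    have := hdeg v
    positivity
  rw [Finset.sum_neg_distrib] at h1
  have h3 : divisor k1 g Q' = Q.ord g := rfl
  rw [h3] at hsum
  have h4 : Q.ord g * Q'.deg ≤ ∑ v ∈ T, ((C v * m : ℕ) : ℤ) * v.deg := by linarith
  have h5 : ((∑ v ∈ T, C v * v.deg) * m : ℕ) = ∑ v ∈ T, ((C v * m : ℕ) : ℤ) * v.deg := by
    push_cast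
    rw [Finset.sum_mul]
    exact Finset.sum_congr rfl fun v _ => by ring
  rw [h5]
  by_cases h6 : Q.ord g ≤ 0
  · refine h6.trans (Finset.sum_nonneg fun v _ => ?_)
    have := hdeg v
    positivity
  · push Not at h6
    have h7 := hdeg Q'
    nlinarith

end Pool.Agent.W2helper38.NU
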