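import Pool.Agent.W2helper38.NU.Bd
import Pool.Agent.W602.GT.SDich

/-!
Functions without poles are constant, and there are divisorial places.
-/

set_option autoImplicit false
set_option linter.overlappingInstances false

namespace Pool.Agent.W2helper38.NU

open FF Pool.Agent.W602.GT

variable {K : Type} [Field K] [Algebra ℂ K]

/-- a function which is regular at all places is constant -/
theorem const_of_reg [Algebra.EssFiniteType ℂ K] {n : ℕ} (hn : Algebra.trdeg ℂ K = n) {f : K}
    (hf : ∀ P : Place ℂ K, P.Reg f) : ∃ c : ℂ, f = algebraMap ℂ K c := by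
  classical
  by_contra hcon
  obtain ⟨h, p, t, u, hhp, htS, -, hb, hkill⟩ := basis_pick (k := ℂ) (K := K) hn {f}
    Set.univ (by
      rw [IntermediateField.adjoin_univ]
      exact ⟨fun x => isAlgebraic_algebraMap (A := K)
        (⟨x, trivial⟩ : (⊤ : IntermediateField ℂ K))⟩)
  have h0 : h ≠ 0 := by
    rintro rfl
    exact hcon (const_of_all hn fun D => hkill D (fun i => i.elim0) f rfl)
  have h1 : h = 1 := by
    by_contra h1
    have h2 : t ⟨0, by omega⟩ = t ⟨1, by omega⟩ := by
      rw [Set.mem_singleton_iff.1 (htS _), Set.mem_singleton_iff.1 (htS _)]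
    have h3 : (⟨0, by omega⟩ : Fin h) = ⟨1, by omega⟩ :=
      Sum.inl_injective (hb.1.injective (a₁ := Sum.inl _) (a₂ := Sum.inl _) h2)
    simp at h3
  subst h1
  have hu : AlgebraicIndependent ℂ u := hb.1.comp Sum.inr Sum.inr_injective
  have hFF : IsFF (IntermediateField.adjoin ℂ (Set.range u)) K :=
    isFF_adjoin hn (by omega) hu
  have hc0 : CharZero (IntermediateField.adjoin ℂ (Set.range u)) := inferInstance
  have htr : Transcendental (IntermediateField.adjoin ℂ (Set.range u)) f := by
    intro halg
    obtain ⟨D, hD⟩ := exists_der (L := ℂ) _ hb (Sum.elim (fun _ => 1) fun _ => 0)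
    have h2 : IntermediateField.adjoin ℂ (Set.range u) ≤ consts D := by
      rw [IntermediateField.adjoin_le_iff]
      rintro _ ⟨i, rfl⟩
      exact hD (Sum.inr i)
    have h3 : IsAlgebraic (consts D) f := by
      obtain ⟨q, hq0, hq⟩ := halg
      refine ⟨q.map (IntermediateField.inclusion h2).toRingHom, ?_, ?_⟩
      · exact (Polynomial.map_ne_zero_iff (IntermediateField.inclusion h2).injective).2 hq0
      · rw [Polynomial.aeval_def, Polynomial.eval₂_map]
        exact hq
    have h4 := der_of_alg D h3
    have h5 := hD (Sum.inl 0)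
    change D (t 0) = 1 at h5
    rw [Set.mem_singleton_iff.1 (htS 0), h4] at h5
    exact zero_ne_one h5
  obtain ⟨S, hS, hsum⟩ := poles (k := IntermediateField.adjoin ℂ (Set.range u)) (f := f) htr
  have hfin := IsFF.finite htr
  have hpos : 0 < Module.finrank (IntermediateField.adjoin
    (IntermediateField.adjoin ℂ (Set.range u)) {f}) K := Module.finrank_pos
  rcases S.eq_empty_or_nonempty with h2 | ⟨w, hw⟩
  · rw [h2, Finset.sum_empty] at hsum
    omega
  · have h3 := (hS w).1 hw
    have hf0 : f ≠ 0 := by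
      rintro rfl
      exact hcon ⟨0, by simp⟩
    have h4 := ((down w).reg_iff hf0).1 (hf (down w))
    change 0 ≤ w.ord f at h4
    omega

/-- there is a divisorial place -/
theorem exists_divisorial [Algebra.EssFiniteType ℂ K] {n : ℕ} (hn : Algebra.trdeg ℂ K = n)
    (hn1 : 1 ≤ n) : ∃ P : Place ℂ K, Divisorial n P := by
  obtain ⟨m, rfl⟩ : ∃ m, n = m + 1 := ⟨n - 1, by omega⟩
  obtain ⟨ι, z, hz⟩ := exists_isTranscendenceBasis' ℂ K
  have h1 := hz.cardinalMk_eq_trdeg
  rw [hn] at h1
  have h2 : Cardinal.lift.{0} (Cardinal.mk ι) = Cardinal.lift.{0} (Cardinal.mk (Fin (m + 1))) := by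
    rw [h1]
    simp
  obtain ⟨e⟩ := Cardinal.lift_mk_eq'.1 h2
  let u : Fin m → K := fun i => z (e.symm i.castSucc)
  have hu : AlgebraicIndependent ℂ u :=
    hz.1.comp (fun i : Fin m => e.symm i.castSucc) fun i j h => by
      have := e.symm.injective h
      exact Fin.castSucc_injective _ this
  have hFF : IsFF (IntermediateField.adjoin ℂ (Set.range u)) K := isFF_adjoin hn rfl hu
  have hc0 : CharZero (IntermediateField.adjoin ℂ (Set.range u)) := inferInstance
  obtain ⟨P, -⟩ := exists_place (k := IntermediateField.adjoin ℂ (Set.range u)) (K := K)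
  refine ⟨down P, u, fun G hG => ?_⟩
  have h3 : MvPolynomial.aeval u G ≠ 0 := fun h => hG
    ((injective_iff_map_eq_zero _).1 hu G h)
  refine ⟨h3, ?_⟩
  have h4 : MvPolynomial.aeval u G ∈ IntermediateField.adjoin ℂ (Set.range u) := by
    have h5 : (Algebra.adjoin ℂ (Set.range u)) ≤
        (IntermediateField.adjoin ℂ (Set.range u)).toSubalgebra :=
      IntermediateField.algebra_adjoin_le_adjoin _ _
    apply h5
    rw [Algebra.adjoin_range_eq_range_aeval]
    exact ⟨G, rfl⟩
  exact P.ord_const (c := ⟨_, h4⟩) fun h => h3 (congrArg Subtype.val h)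

end Pool.Agent.W2helper38.NU
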