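import Pool.Agent.W2helper38.NU.Rat
import Pool.Agent.W2helper38.NU.Cst
import Pool.Agent.R887.DefsNef

/-!
Varieties which are dominated by a normal projective variety with an effective (or zero)
anticanonical `ℚ`-divisor: the Kodaira dimension, and the torsion of nef canonical divisors.
-/

set_option autoImplicit false
set_option linter.overlappingInstances false
set_option linter.unusedSectionVars false

namespace Pool.Agent.W2helper38.NU

open FF Pool.Agent.W602.GT Pool.Agent.Y172 Pool.Agent.W603.LV Pool.Agent.W619.PQ Pool.Agent.R887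

section

variable {F : Type} [Field F] [Algebra ℂ F] {N n : ℕ} {y : Fin (N + 1) → F}

theorem reg_of_log {P : Place ℂ F} {D : Derivation ℂ F F} (h : DerLog P D) : DerReg P D := by
  intro f hf
  by_cases h0 : f = 0
  · rw [h0, map_zero]
    exact P.reg_zero
  · have h3 := P.reg_mul (h f) hf
    rwa [div_mul_cancel₀ _ h0] at h3

/-- there is a prime divisor through every centre -/
theorem exists_through (hy : NormalModel y) (Q : Place ℂ F) :
    ∃ P, IsPrimeDivisor y P ∧ Through y P Q := by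
  by_contra hcon
  push Not at hcon
  obtain ⟨t, ht0, ht⟩ := Q.surj
  have h1 : t⁻¹ ∈ localRing y Q := mem_localRing_of_reg hy fun P hP hPQ => absurd hPQ (hcon P hP)
  have h2 := (Q.reg_iff (inv_ne_zero ht0)).1 (localRing_reg h1)
  rw [Q.ord_inv, ht] at h2
  omega

variable {P : Place ℂ F} {x : Fin n → F} {E : Fin n → Derivation ℂ F F} {i0 : Fin n}

/-- a form in coordinates at a divisorial place -/
theorem loc_ne (hl : Loc P x E i0) {M : ℕ} {ω : (Fin n → Derivation ℂ F F) → F}
    (hω : IsPluri M ω) {G : Fin n → Derivation ℂ F F} (hG : ω G ≠ 0) : ω E ≠ 0 := by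
  intro h0
  have h1 := pluri_coord hl.bas hl.dual hω G
  rw [h0, mul_zero] at h1
  exact hG h1

/-- the order of a form is the order of its value at the local vector fields -/
theorem loc_ord (hl : Loc P x E i0) {M : ℕ} {ω : (Fin n → Derivation ℂ F F) → F}
    (hω : IsPluri M ω) {c : ℤ} (h : OrdEq P ω c) : ω E ≠ 0 ∧ P.ord (ω E) = c := by
  obtain ⟨h1, G, hG, hG0, hGo⟩ := h
  have h0 := loc_ne hl hω hG0
  refine ⟨h0, le_antisymm ?_ ?_⟩
  · have h2 := pluri_coord hl.bas hl.dual hω G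
    have h3 : Ge P 0 (Matrix.of fun i j => G i (x j)).det :=
      ge_det P _ _ (fun _ _ => 0) (fun a b => hG a _ (hl.reg b)) fun σ => by simp
    have h4 : (Matrix.of fun i j => G i (x j)).det ^ M ≠ 0 := by
      intro h4
      apply hG0
      rw [h2, h4, zero_mul]
    have h5 := (h3.pow M).resolve_left h4
    have h6 : P.ord (ω G) = c := by exact_mod_cast hGo
    rw [h2, P.ord_mul h4 h0] at h6
    rw [mul_zero] at h5
    linarith
  · have h2 := (h1 E hl.pres).resolve_left h0
    exact_mod_cast h2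

/-- lower bounds for the order of a form from the local vector fields -/
theorem loc_ge (hl : Loc P x E i0) {M : ℕ} {ω : (Fin n → Derivation ℂ F F) → F}
    (hω : IsPluri M ω) {c : ℤ} (h : Ge P c (ω E)) {G : Fin n → Derivation ℂ F F}
    (hG : ∀ i, DerReg P (G i)) : Ge P c (ω G) := by
  have h2 := pluri_coord hl.bas hl.dual hω G
  have h3 : Ge P 0 (Matrix.of fun i j => G i (x j)).det :=
    ge_det P _ _ (fun _ _ => 0) (fun a b => hG a _ (hl.reg b)) fun σ => by simp
  rw [h2]
  exact ((h3.pow M).mul h).mono (by rw [mul_zero, zero_add])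

/-- sections of `q K_X + m H` at the divisors over a variety with canonical singularities -/
theorem twisted_all (hy : NormalModel y) (hn : Algebra.trdeg ℂ F = n) (hcan : Canonical y n)
    {i : Fin (N + 1)} (hi : y i ≠ 0) {q m : ℕ} {ω : (Fin n → Derivation ℂ F F) → F}
    (hω : IsTwistedSection y i n q m ω) {P : Place ℂ F} (hP : Divisorial n P) {l : Fin (N + 1)}
    (hl : Centred y l P) {G : Fin n → Derivation ℂ F F} (hG : ∀ i, DerReg P (G i)) :
    Ge P (-(m * P.ord (y i / y l))) (ω G) := by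
  have hess := hy.ess
  obtain ⟨x, E, i0, hloc⟩ := exists_loc hn hP
  refine loc_ge hloc hω.1 ?_ hG
  obtain ⟨r, hr, η, hη, hη0, hηP⟩ := hcan P hP
  by_cases h0 : ω E = 0
  · exact Or.inl h0
  right
  -- the form `η` does not vanish
  have hηE : η E ≠ 0 := by
    obtain ⟨P1, hP1, hP1P⟩ := exists_through hy P
    obtain ⟨-, G1, -, hG1, -⟩ := hη0 P1 hP1 hP1P
    exact loc_ne hloc hη hG1
  have hu : y i / y l ≠ 0 := div_ne_zero hi hl.1
  have hg : ω E ^ r * (y i / y l) ^ (m * r) / η E ^ q ∈ localRing y P := by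
    refine mem_localRing_of_reg hy fun P1 hP1 hP1P => ?_
    have hP1d := hP1.divisorial hy hn
    obtain ⟨x1, E1, i1, hloc1⟩ := exists_loc hn hP1d
    have hd : (Matrix.of fun a b => E a (x1 b)).det ≠ 0 := by
      intro h1
      have h2 := pluri_coord hloc1.bas hloc1.dual hω.1 E
      by_cases hq : q = 0
      · subst hq
        have h3 := pluri_coord hloc1.bas hloc1.dual hη E
        rw [h1, zero_pow hr.ne', zero_mul] at h3
        exact hηE h3
      · rw [h1, zero_pow hq, zero_mul] at h2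
        exact h0 h2
    have e1 : ω E ^ r * (y i / y l) ^ (m * r) / η E ^ q =
        ω E1 ^ r * (y i / y l) ^ (m * r) / η E1 ^ q := by
      rw [pluri_coord hloc1.bas hloc1.dual hω.1 E, pluri_coord hloc1.bas hloc1.dual hη E, mul_pow,
        mul_pow, ← pow_mul, ← pow_mul, mul_comm r q, mul_assoc, mul_div_mul_left]
      exact pow_ne_zero _ hd
    rw [e1]
    have hl1 := hP1P.centred hl
    by_cases h1 : ω E1 = 0
    · left
      rw [h1, zero_pow hr.ne', zero_mul, zero_div]
    have h2 := (hω.2 P1 l hP1 hl1 E1 hloc1.pres).resolve_left h1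
    have h3 : -(m * P1.ord (y i / y l)) ≤ P1.ord (ω E1) := by exact_mod_cast h2
    obtain ⟨h4, h5⟩ := loc_ord hloc1 hη (c := 0) (by exact_mod_cast hη0 P1 hP1 hP1P)
    right
    rw [P1.ord_div (mul_ne_zero (pow_ne_zero _ h1) (pow_ne_zero _ hu)) (pow_ne_zero _ h4),
      P1.ord_mul (pow_ne_zero _ h1) (pow_ne_zero _ hu), P1.ord_pow, P1.ord_pow, P1.ord_pow, h5,
      mul_zero, sub_zero]
    push_cast
    have h6 : (0 : ℤ) ≤ r := Int.natCast_nonneg _
    nlinarith
  have h1 := (P.reg_iff (div_ne_zero (mul_ne_zero (pow_ne_zero _ h0) (pow_ne_zero _ hu))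
    (pow_ne_zero _ hηE))).1 (localRing_reg hg)
  rw [P.ord_div (mul_ne_zero (pow_ne_zero _ h0) (pow_ne_zero _ hu)) (pow_ne_zero _ hηE),
    P.ord_mul (pow_ne_zero _ h0) (pow_ne_zero _ hu), P.ord_pow, P.ord_pow, P.ord_pow] at h1
  have h2 := (hηP E hloc.pres).resolve_left hηE
  have h3 : 0 ≤ P.ord (η E) := by exact_mod_cast h2
  push_cast at h1
  have h4 : (0 : ℤ) ≤ q * P.ord (η E) := mul_nonneg (Int.natCast_nonneg _) h3
  have h5 : (0 : ℤ) < r := by exact_mod_cast hr
  have h6 : (r : ℤ) * -(m * P.ord (y i / y l)) ≤ r * P.ord (ω E) := by linarith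
  exact le_of_mul_le_mul_left h6 h5

open scoped Classical in
/-- the functions which generate the hyperplane section -/
noncomputable def gens (y : Fin (N + 1) → F) (i : Fin (N + 1)) : Finset F :=
  (Finset.univ.filter fun l => y l ≠ 0).image fun l => y l / y i

theorem twisted_twReg (hy : NormalModel y) (hn : Algebra.trdeg ℂ F = n) (hcan : Canonical y n)
    {i : Fin (N + 1)} (hi : y i ≠ 0) {q m : ℕ} {ω : (Fin n → Derivation ℂ F F) → F}
    (hω : IsTwistedSection y i n q m ω) (P : Place ℂ F) (hP : Divisorial n P)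
    (G : Fin n → Derivation ℂ F F) (hG : ∀ i, DerReg P (G i)) : TwReg P (gens y i) m (ω G) := by
  classical
  obtain ⟨l, hl⟩ := exists_centred hy P
  rcases twisted_all hy hn hcan hi hω hP hl hG with h | h
  · exact Or.inl h
  · refine Or.inr ⟨y l / y i, ?_, div_ne_zero hl.1 hi, ?_⟩
    · exact Finset.mem_image_of_mem _ (by simpa using hl.1)
    · rw [P.ord_div hl.1 hi]
      rw [P.ord_div hi hl.1] at h
      linarith

/-- nef canonical divisors are pseudo-effective -/
theorem psef_of_nef (hy : NormalModel y) (hn : Algebra.trdeg ℂ F = n) (hn1 : 1 ≤ n)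
    (hcan : Canonical y n) (hnef : CanonicalNef y n) : Psef ℂ F n (fun _ => False) := by
  classical
  have hess := hy.ess
  obtain ⟨i, hi⟩ := hy.ne
  refine ⟨gens y i, fun q => ?_⟩
  rcases Nat.eq_zero_or_pos q with rfl | hq
  · refine ⟨1, one_pos, fun _ => 1, ⟨fun A D => by simp, ?_, ?_⟩, fun _ => 0, one_ne_zero⟩
    · intro P _ D _
      refine Or.inr ⟨y i / y i, Finset.mem_image_of_mem _ (by simpa using hi), div_ne_zero hi hi,
        ?_⟩
      rw [div_self hi, P.ord_one, mul_zero]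
    · intro P _ _ D _
      refine Or.inr ⟨y i / y i, Finset.mem_image_of_mem _ (by simpa using hi), div_ne_zero hi hi,
        ?_⟩
      rw [div_self hi, P.ord_one, mul_zero]
  · obtain ⟨m, hm, h⟩ := hnef i hi q hq
    obtain ⟨Q, hQ⟩ := exists_divisorial hn hn1
    obtain ⟨ω, hω, hgen⟩ := h Q hQ
    obtain ⟨P1, hP1, hP1Q⟩ := exists_through hy Q
    obtain ⟨l, hl⟩ := exists_centred hy P1
    obtain ⟨-, G, -, hG, -⟩ := hgen P1 l hP1 hP1Q hl
    exact ⟨m, hm, ω, ⟨hω.1, fun P hP D hD => twisted_twReg hy hn hcan hi hω P hP D fun i =>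
      reg_of_log (hD i), fun P hP _ D hD => twisted_twReg hy hn hcan hi hω P hP D hD⟩, G, hG⟩

end

section

variable {F K : Type} [Field F] [Field K] [Algebra ℂ F] [Algebra ℂ K] [Algebra F K]
  [IsScalarTower ℂ F K] [FiniteDimensional F K] {n N N' r : ℕ} {z : Fin (N + 1) → K}
  {y : Fin (N' + 1) → F}

/-- the pull-back of a regular form is a multiple of a power of the form upstairs -/
theorem const_rat (hz : NormalModel z) (hnK : Algebra.trdeg ℂ K = n)
    {η : (Fin n → Derivation ℂ K K) → K} (hη : IsPluri r η) (hr : 0 < r)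
    (hη0 : ∀ Q, IsPrimeDivisor z Q → NoZero Q η)
    [Algebra.EssFiniteType ℂ F] (hnF : Algebra.trdeg ℂ F = n) {x : Fin n → F}
    {E : Fin n → Derivation ℂ F F} {E' : Fin n → Derivation ℂ K K} (c : Crd (K := K) x E E')
    {M : ℕ} {Ω : (Fin n → Derivation ℂ F F) → F} (hΩ : IsPluri M Ω)
    (hreg : ∀ P : Place ℂ F, Divisorial n P → RegAt P Ω) :
    ∃ a : ℂ, algebraMap F K (Ω E) ^ r / η E' ^ M = algebraMap ℂ K a := by
  classical
  have hessK : Algebra.EssFiniteType ℂ K := hz.ess
  have h1 : ∀ j, algebraMap F K (Ω E) ^ r / η E' ^ M ∈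
      Lin z (({1} : Finset F).image fun s => algebraMap F K s ^ r) j := fun j =>
    rat_lin hz hnK hη hr hη0 hΩ (fun P hP D hD => by
      rcases hreg P hP D hD with h | h
      · exact Or.inl h
      · refine Or.inr ⟨1, Finset.mem_singleton_self _, one_ne_zero, ?_⟩
        rw [P.ord_one, mul_zero]
        exact h) hnF c
  refine const_of_reg hnK fun P => ?_
  obtain ⟨C, hC⟩ := lin_all hz (({1} : Finset F).image fun s => algebraMap F K s ^ r) P
  have h2 := hC 0 _ (h1 0)
  rw [mul_zero, Nat.cast_zero, neg_zero] at h2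
  exact h2

/-- the Kodaira dimension is at most zero -/
theorem kod_le (hz : NormalModel z) (hnK : Algebra.trdeg ℂ K = n)
    {η : (Fin n → Derivation ℂ K K) → K} (hη : IsPluri r η) (hr : 0 < r)
    (hη0 : ∀ Q, IsPrimeDivisor z Q → NoZero Q η)
    [Algebra.EssFiniteType ℂ F] (hnF : Algebra.trdeg ℂ F = n) :
    ¬ KodGe ℂ F n (fun _ => False) 1 := by
  rintro ⟨M, hM, ω, hω, D, hD, hind⟩
  obtain ⟨x, E, E', c⟩ := exists_Crd (K := K) hnF
  choose a ha using fun j => const_rat hz hnK hη hr hη0 hnF c (hω j).1 fun P hP =>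
    (hω j).2.2 P hP fun h => h
  have hval : ∀ j, ω j D = (Matrix.of fun i j => D i (x j)).det ^ M * ω j E := fun j =>
    pluri_coord c.bas c.dual (hω j).1 D
  have hd : (Matrix.of fun i j => D i (x j)).det ^ M ≠ 0 := by
    intro h0
    apply hD
    rw [hval, h0, zero_mul]
  have hE0 : ω 0 E ≠ 0 := by
    intro h0
    apply hD
    rw [hval, h0, mul_zero]
  have htr := hind.transcendental 0
  change Transcendental ℂ (ω 1 D / ω 0 D) at htr
  rw [hval 1, hval 0, mul_div_mul_left _ _ hd] at htr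
  have h1 : algebraMap F K (ω 0 E) ^ r ≠ 0 := pow_ne_zero _ ((map_ne_zero _).2 hE0)
  have hηM : η E' ^ M ≠ 0 := by
    obtain ⟨Q, hQ⟩ := exists_through hz (Classical.choice (by
      have hessK : Algebra.EssFiniteType ℂ K := hz.ess
      by_cases hn1 : 1 ≤ n
      · obtain ⟨Q, -⟩ := exists_divisorial hnK hn1
        exact ⟨Q⟩
      · exfalso
        have h2 : n = 0 := by omega
        subst h2
        have h3 : Algebra.trdeg ℂ F = 0 := by simpa using hnF
        rw [trdeg_eq_zero_iff] at h3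
        exact htr (h3.isAlgebraic _)))
    obtain ⟨G, -, hG0, -⟩ := hη0 Q hQ.1
    exact pow_ne_zero _ (val_ne hη hG0 c)
  have h2 : algebraMap F K (ω 1 E / ω 0 E) ^ r = algebraMap ℂ K (a 1 / a 0) := by
    have ha0 : a 0 ≠ 0 := by
      intro h0
      have := ha 0
      rw [h0, map_zero, div_eq_zero_iff] at this
      exact this.elim h1 hηM
    have h3 := (div_eq_iff hηM).1 (ha 1)
    have h4 := (div_eq_iff hηM).1 (ha 0)
    have h5 : algebraMap ℂ K (a 0) ≠ 0 := (map_ne_zero _).2 ha0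
    rw [map_div₀, div_pow, h3, h4, map_div₀, mul_div_mul_right _ _ hηM]
  have h3 : (ω 1 E / ω 0 E) ^ r = algebraMap ℂ F (a 1 / a 0) := by
    apply (algebraMap F K).injective
    rw [map_pow, h2, ← IsScalarTower.algebraMap_apply]
  apply htr
  refine ⟨Polynomial.X ^ r - Polynomial.C (a 1 / a 0), Polynomial.X_pow_sub_C_ne_zero hr _, ?_⟩
  rw [map_sub, map_pow, Polynomial.aeval_X, Polynomial.aeval_C, h3, sub_self]

/-- **Abundance.** If a normal projective variety with canonical singularities and nef canonical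
divisor is dominated by a normal projective variety with an effective (or zero) anticanonical
`ℚ`-divisor, then its canonical divisor is torsion. -/
theorem torsion_of_nef (hz : NormalModel z) (hnK : Algebra.trdeg ℂ K = n) (hn1 : 1 ≤ n)
    {η : (Fin n → Derivation ℂ K K) → K} (hη : IsPluri r η) (hr : 0 < r)
    (hη0 : ∀ Q, IsPrimeDivisor z Q → NoZero Q η) (hnF : Algebra.trdeg ℂ F = n)
    (hy : NormalModel y) (hcan : Canonical y n) (hnef : CanonicalNef y n) :
    ∃ (M : ℕ) (Ω : (Fin n → Derivation ℂ F F) → F), 0 < M ∧ IsPluri M Ω ∧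
      ∀ P, IsPrimeDivisor y P → OrdEq P Ω 0 := by
  classical
  have hess := hy.ess
  have hessK : Algebra.EssFiniteType ℂ K := hz.ess
  obtain ⟨Q0, hQ0⟩ := exists_divisorial hnK hn1
  obtain ⟨Q1, hQ1, -⟩ := exists_through hz Q0
  obtain ⟨G, -, hG, -⟩ := hη0 Q1 hQ1
  obtain ⟨M, Ω, hM, hΩ, hreg, D, hD⟩ := exists_section hz hnK hn1 hη hr hη0 hG hnF
    (psef_of_nef hy hnF hn1 hcan hnef)
  refine ⟨M, Ω, hM, hΩ, fun P hP => ?_⟩
  have hPd := hP.divisorial hy hnF
  obtain ⟨x, E, i0, hl⟩ := exists_loc hnF hPd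
  choose E' hE' using fun i => exists_lift (L := K) hnF (E i)
  have c : Crd (K := K) x E E' := ⟨hl.bas, hl.dual, hE'⟩
  have hΩE : Ω E ≠ 0 := loc_ne hl hΩ hD
  have hηE : η E' ≠ 0 := val_ne hη hG c
  have h1 : 0 ≤ P.ord (Ω E) := (hreg P hPd E hl.pres).resolve_left hΩE
  refine ⟨fun G' hG' => ?_, E, hl.pres, hΩE, ?_⟩
  · rcases hreg P hPd G' hG' with h | h
    · exact Or.inl h
    · right
      exact_mod_cast h
  by_contra hcon
  have h2 : 1 ≤ P.ord (Ω E) := by
    have h3 : P.ord (Ω E) ≠ 0 := fun h => hcon (by rw [h]; simp)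
    omega
  obtain ⟨Q, e, hPQ⟩ := exists_above (L := K) P
  obtain ⟨a, ha⟩ := const_rat hz hnK hη hr hη0 hnF c hΩ hreg
  have h3 : (r : ℤ) * (e * P.ord (Ω E)) = M * Q.ord (η E') := by
    have h4 : algebraMap F K (Ω E) ^ r ≠ 0 := pow_ne_zero _ ((map_ne_zero _).2 hΩE)
    have ha0 : a ≠ 0 := by
      rintro rfl
      rw [map_zero, div_eq_zero_iff] at ha
      exact ha.elim h4 (pow_ne_zero _ hηE)
    have h5 := congrArg Q.ord ha
    rw [Q.ord_const ha0, Q.ord_div h4 (pow_ne_zero _ hηE), Q.ord_pow, Q.ord_pow, hPQ.2] at h5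
    linarith
  have hv : 1 ≤ Q.ord (η E') := by
    by_contra h4
    push Not at h4
    have h5 : (M : ℤ) * Q.ord (η E') ≤ 0 :=
      mul_nonpos_of_nonneg_of_nonpos (Int.natCast_nonneg _) (by omega)
    have h6 : (0 : ℤ) < r * (e * P.ord (Ω E)) := by
      have h7 : (0 : ℤ) < r := by exact_mod_cast hr
      have h8 : (0 : ℤ) < e := by exact_mod_cast hPQ.1
      positivity
    omega
  obtain ⟨i, hi⟩ := hy.ne
  obtain ⟨C, hC⟩ := lin_all hz ((gens y i).image fun s => algebraMap F K s ^ r) Q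
  obtain ⟨m, hm, hgen⟩ := hnef i hi (C + 1) (by omega)
  obtain ⟨ω, hω, hωP⟩ := hgen P hPd
  obtain ⟨l, hlc⟩ := exists_centred hy P
  have h4 : OrdEq P ω ((-(m * P.ord (y i / y l)) : ℤ) : ℚ) := by
    have := hωP P l hP (fun f hf => localRing_reg hf) hlc
    push_cast
    exact this
  obtain ⟨h5, h6⟩ := loc_ord hl hω.1 h4
  have h7 := hC m _ (rat_lin hz hnK hη hr hη0 hω.1
    (fun P hP D hD => twisted_twReg hy hnF hcan hi hω P hP D hD) hnF c)
  have h8 : algebraMap F K (ω E) ^ r ≠ 0 := pow_ne_zero _ ((map_ne_zero _).2 h5)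
  have h9 := h7.resolve_left (div_ne_zero h8 (pow_ne_zero _ hηE))
  rw [Q.ord_div h8 (pow_ne_zero _ hηE), Q.ord_pow, Q.ord_pow, hPQ.2, h6] at h9
  have h10 : 0 ≤ P.ord (y i / y l) := (P.reg_iff (div_ne_zero hi hlc.1)).1 (hlc.2 i)
  have h11 : (r : ℤ) * (e * -(m * P.ord (y i / y l))) ≤ 0 := by
    have : (0 : ℤ) ≤ r * (e * (m * P.ord (y i / y l))) := by positivity
    linarith
  have h12 : ((m * (C + 1) : ℕ) : ℤ) * 1 ≤ ((m * (C + 1) : ℕ) : ℤ) * Q.ord (η E') :=
    mul_le_mul_of_nonneg_left hv (by positivity)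
  have hm' : (1 : ℤ) ≤ m := by exact_mod_cast hm
  push_cast at h9 h12
  nlinarith

end

end Pool.Agent.W2helper38.NU
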