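import Pool.Agent.W2helper38.NU.Bd
import Pool.Agent.Y172.Cov5
import Pool.Agent.W602.GT.KDefs

/-!
Varieties which are dominated by a normal projective variety with an effective (or zero)
anticanonical `ℚ`-divisor: if the canonical divisor is pseudo-effective, then a multiple is
effective.
-/

set_option autoImplicit false
set_option linter.overlappingInstances false
set_option linter.unusedSectionVars false

namespace Pool.Agent.W2helper38.NU

open FF Pool.Agent.W602.GT Pool.Agent.Y172 Pool.Agent.W603.LV Pool.Agent.W619.PQ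

/-- The form `η` has no zero at `Q`: its order is at most zero, that is, some value of `η` on regular
vector fields is not zero and has order at most zero. -/
def NoZero {K : Type} [Field K] [Algebra ℂ K] {n : ℕ} (Q : Place ℂ K)
    (η : (Fin n → Derivation ℂ K K) → K) : Prop :=
  ∃ G : Fin n → Derivation ℂ K K, (∀ i, DerReg Q (G i)) ∧ η G ≠ 0 ∧ Q.ord (η G) ≤ 0

section

variable {F K : Type} [Field F] [Field K] [Algebra ℂ F] [Algebra ℂ K] [Algebra F K]
  [IsScalarTower ℂ F K] [FiniteDimensional F K] {n N r : ℕ} {z : Fin (N + 1) → K}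

/-- coordinates of `F` with the dual vector fields and their lifts to `K` -/
structure Crd (y : Fin n → F) (E : Fin n → Derivation ℂ F F) (E' : Fin n → Derivation ℂ K K) :
    Prop where
  bas : IsTranscendenceBasis ℂ y
  dual : ∀ i j, E i (y j) = if i = j then 1 else 0
  lift : ∀ i f, E' i (algebraMap F K f) = algebraMap F K (E i f)

theorem exists_Crd (hn : Algebra.trdeg ℂ F = n) : ∃ (y : Fin n → F)
    (E : Fin n → Derivation ℂ F F) (E' : Fin n → Derivation ℂ K K), Crd y E E' := by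
  obtain ⟨y, E, hy, hE⟩ := exists_crd hn
  choose E' hE' using fun i => exists_lift (L := K) hn (E i)
  exact ⟨y, E, E', hy, hE, hE'⟩

variable {y y1 : Fin n → F} {E E1 : Fin n → Derivation ℂ F F} {E' E1' : Fin n → Derivation ℂ K K}

theorem jac_ne (c : Crd (K := K) y E E') (c1 : Crd (K := K) y1 E1 E1') :
    (Matrix.of fun i j => E i (y1 j)).det ≠ 0 := by
  intro h0
  have h1 : IsPluri 1 (fun D : Fin n → Derivation ℂ F F => (Matrix.of fun i j => D i (y j)).det) := by
    intro A D
    have e1 : (Matrix.of fun a b => (∑ j, A a j • D j) (y b)) =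
        A * Matrix.of fun a b => D a (y b) := by
      ext i j
      rw [Matrix.of_apply, Matrix.mul_apply, sum_smul_apply]
      rfl
    change (Matrix.of fun a b => (∑ j, A a j • D j) (y b)).det = _
    rw [e1, Matrix.det_mul, pow_one]
  have h2 := pluri_coord c1.bas c1.dual h1 E
  rw [h0, pow_one, zero_mul] at h2
  have h3 : (Matrix.of fun i j => E i (y j) : Matrix (Fin n) (Fin n) F) = 1 := by
    ext i j
    rw [Matrix.of_apply, c.dual, Matrix.one_apply]
  change (Matrix.of fun i j => E i (y j) : Matrix (Fin n) (Fin n) F).det = 0 at h2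
  rw [h3, Matrix.det_one] at h2
  exact one_ne_zero h2

theorem chg_down (_c : Crd (K := K) y E E') (c1 : Crd (K := K) y1 E1 E1') {M : ℕ}
    {ω : (Fin n → Derivation ℂ F F) → F} (hω : IsPluri M ω) :
    ω E = (Matrix.of fun i j => E i (y1 j)).det ^ M * ω E1 :=
  pluri_coord c1.bas c1.dual hω E

theorem chg_up (c : Crd (K := K) y E E') (c1 : Crd (K := K) y1 E1 E1')
    {η : (Fin n → Derivation ℂ K K) → K} (hη : IsPluri r η) :
    η E' = algebraMap F K (Matrix.of fun i j => E i (y1 j)).det ^ r * η E1' := by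
  rw [pluri_coord (c1.bas.algebraMap_comp (A := K)) (lift_dual c1.dual c1.lift) hη E']
  congr 2
  rw [RingHom.map_det]
  congr 1
  ext i j
  rw [Matrix.of_apply, RingHom.mapMatrix_apply, Matrix.map_apply, Matrix.of_apply]
  exact c.lift i (y1 j)

/-- the quotient of the pull-back and a power of the form upstairs -/
theorem rat_eq (c : Crd (K := K) y E E') (c1 : Crd (K := K) y1 E1 E1') {M : ℕ}
    {ω : (Fin n → Derivation ℂ F F) → F} (hω : IsPluri M ω)
    {η : (Fin n → Derivation ℂ K K) → K} (hη : IsPluri r η) :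
    algebraMap F K (ω E) ^ r / η E' ^ M = algebraMap F K (ω E1) ^ r / η E1' ^ M := by
  have hd : algebraMap F K (Matrix.of fun i j => E i (y1 j)).det ≠ 0 :=
    (map_ne_zero _).2 (jac_ne c c1)
  rw [chg_down c c1 hω, chg_up c c1 hη, map_mul, map_pow, mul_pow, mul_pow, ← pow_mul, ← pow_mul,
    mul_comm r M, mul_div_mul_left _ _ (pow_ne_zero _ hd)]

theorem val_ne {η : (Fin n → Derivation ℂ K K) → K} (hη : IsPluri r η)
    {G : Fin n → Derivation ℂ K K} (hG : η G ≠ 0) (c : Crd (K := K) y E E') : η E' ≠ 0 := by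
  intro h0
  have h1 := pluri_coord (c.bas.algebraMap_comp (A := K)) (lift_dual c.dual c.lift) hη G
  rw [h0, mul_zero] at h1
  exact hG h1

variable {P : Place ℂ F} {Q : Place ℂ K} {e : ℕ} {i0 : Fin n}

theorem Crd.of_loc (hl : Loc P y E i0) (h : ∀ i f, E' i (algebraMap F K f) = algebraMap F K (E i f)) :
    Crd (K := K) y E E' := ⟨hl.bas, hl.dual, h⟩

/-- the order of a form without zero at a prime divisor on lifted vector fields -/
theorem val_nonpos (h : Over Q P e) (hl : Loc P y E i0) (c : Crd (K := K) y E E')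
    {η : (Fin n → Derivation ℂ K K) → K} (hη : IsPluri r η) (h0 : NoZero Q η) :
    Q.ord (η E') ≤ 0 := by
  obtain ⟨G, hG, hG0, hGo⟩ := h0
  have h1 := pluri_coord (c.bas.algebraMap_comp (A := K)) (lift_dual c.dual c.lift) hη G
  have h2 : Ge Q 0 (Matrix.of fun i j => G i (algebraMap F K (y j))).det :=
    ge_det Q _ _ (fun _ _ => 0) (fun a b => hG a _ (h.reg.2 (hl.reg b))) fun σ => by simp
  have h3 : (Matrix.of fun i j => G i (algebraMap F K (y j))).det ^ r ≠ 0 := by
    intro h3
    apply hG0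
    rw [h1]
    exact mul_eq_zero_of_left h3 _
  have h4 : η E' ≠ 0 := val_ne hη hG0 c
  have h5 := (h2.pow r).resolve_left h3
  have h7 := Q.ord_mul h3 h4
  have h8 : Q.ord ((Matrix.of fun i j => G i (algebraMap F K (y j))).det ^ r * η E') ≤ 0 := by
    have h9 : η G = (Matrix.of fun i j => G i (algebraMap F K (y j))).det ^ r * η E' := h1
    rw [← h9]
    exact hGo
  rw [h7] at h8
  rw [mul_zero] at h5
  linarith

/-- the quotients have bounded poles on the variety upstairs -/
theorem rat_lin (hz : NormalModel z) (hnK : Algebra.trdeg ℂ K = n)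
    {η : (Fin n → Derivation ℂ K K) → K} (hη : IsPluri r η) (hr : 0 < r)
    (hη0 : ∀ Q, IsPrimeDivisor z Q → NoZero Q η) {S : Finset F} {j M : ℕ}
    {ω : (Fin n → Derivation ℂ F F) → F} (hω : IsPluri M ω)
    (hS : ∀ P : Place ℂ F, Divisorial n P → ∀ D : Fin n → Derivation ℂ F F,
      (∀ i, DerReg P (D i)) → TwReg P S j (ω D))
    [Algebra.EssFiniteType ℂ F] (hnF : Algebra.trdeg ℂ F = n) (c : Crd (K := K) y E E') :
    algebraMap F K (ω E) ^ r / η E' ^ M ∈
      Lin z (by classical exact S.image fun s => algebraMap F K s ^ r) j := by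
  classical
  intro Q hQ
  obtain ⟨P, e, hPQ⟩ := exists_below (k := ℂ) (K := F) Q
  have hPd : Divisorial n P := divisorial_down hPQ (hQ.divisorial hz hnK)
  obtain ⟨y1, E1, i0, hl⟩ := exists_loc hnF hPd
  choose E1' hE1' using fun i => exists_lift (L := K) hnF (E1 i)
  have c1 : Crd (K := K) y1 E1 E1' := ⟨hl.bas, hl.dual, hE1'⟩
  rw [rat_eq c c1 hω hη]
  have h1 := val_nonpos hPQ hl c1 hη (hη0 Q hQ)
  have hη1 : η E1' ≠ 0 := by
    obtain ⟨G, -, hG0, -⟩ := hη0 Q hQ
    exact val_ne hη hG0 c1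
  by_cases h0 : ω E1 = 0
  · left
    rw [h0, map_zero, zero_pow hr.ne', zero_div]
  have h0' : algebraMap F K (ω E1) ^ r ≠ 0 := pow_ne_zero _ ((map_ne_zero _).2 h0)
  obtain ⟨s, hs, hs0, hso⟩ := (hS P hPd E1 hl.pres).resolve_left h0
  refine Or.inr ⟨algebraMap F K s ^ r, Finset.mem_image_of_mem _ hs,
    pow_ne_zero _ ((map_ne_zero _).2 hs0), ?_⟩
  rw [Q.ord_div h0' (pow_ne_zero _ hη1), Q.ord_pow, Q.ord_pow, Q.ord_pow, hPQ.2, hPQ.2]
  have h2 : (r : ℤ) * (e * (j * P.ord s)) ≤ r * (e * P.ord (ω E1)) := by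
    refine mul_le_mul_of_nonneg_left (mul_le_mul_of_nonneg_left hso ?_) ?_ <;> positivity
  have h3 : (M : ℤ) * Q.ord (η E1') ≤ 0 := mul_nonpos_of_nonneg_of_nonpos (by positivity) h1
  linarith

/-- **The form upstairs is regular as a section of the pull-back.** -/
theorem val_nonneg (hz : NormalModel z) (hnK : Algebra.trdeg ℂ K = n) (hn1 : 1 ≤ n)
    {η : (Fin n → Derivation ℂ K K) → K} (hη : IsPluri r η) (hr : 0 < r)
    (hη0 : ∀ Q, IsPrimeDivisor z Q → NoZero Q η) {G : Fin n → Derivation ℂ K K}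
    (hG : η G ≠ 0) [Algebra.EssFiniteType ℂ F] (hnF : Algebra.trdeg ℂ F = n)
    (hpsef : Psef ℂ F n (fun _ => False)) (h : Over Q P e) (hQ : Divisorial n Q)
    (hl : Loc P y E i0) (c : Crd (K := K) y E E') : 0 ≤ Q.ord (η E') := by
  classical
  by_contra hcon
  push Not at hcon
  obtain ⟨S, hS⟩ := hpsef
  have hPd : Divisorial n P := divisorial_down h hQ
  obtain ⟨C, hC⟩ := lin_up hz hnK hn1 (S.image fun s => algebraMap F K s ^ r) hQ
  obtain ⟨j, hj, ω, hω, D, hD⟩ := hS (C + (∑ s ∈ S, r * (e * (P.ord s).natAbs)) + 1)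
  have hωr : ∀ P : Place ℂ F, Divisorial n P → ∀ D : Fin n → Derivation ℂ F F,
      (∀ i, DerReg P (D i)) → TwReg P S j (ω D) := fun P hP D hD => hω.2.2 P hP (fun h => h) D hD
  have h0 : ω E ≠ 0 := by
    intro h0
    have h1 := pluri_coord hl.bas hl.dual hω.1 D
    rw [h0, mul_zero] at h1
    exact hD h1
  have hη1 : η E' ≠ 0 := val_ne hη hG c
  have h0' : algebraMap F K (ω E) ^ r ≠ 0 := pow_ne_zero _ ((map_ne_zero _).2 h0)
  have h1 := hC j _ (rat_lin hz hnK hη hr hη0 hω.1 hωr hnF c)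
    (div_ne_zero h0' (pow_ne_zero _ hη1))
  obtain ⟨s, hs, hs0, hso⟩ := (hωr P hPd E hl.pres).resolve_left h0
  rw [Q.ord_div h0' (pow_ne_zero _ hη1), Q.ord_pow, Q.ord_pow, h.2] at h1
  have h2 : (r : ℤ) * (e * (j * P.ord s)) ≤ r * (e * P.ord (ω E)) := by
    refine mul_le_mul_of_nonneg_left (mul_le_mul_of_nonneg_left hso ?_) ?_ <;> positivity
  have h3 : r * (e * (P.ord s).natAbs) ≤ ∑ s ∈ S, r * (e * (P.ord s).natAbs) :=
    Finset.single_le_sum (f := fun s => r * (e * (P.ord s).natAbs)) (fun _ _ => Nat.zero_le _) hs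
  have h4 : -((r * (e * (P.ord s).natAbs) : ℕ) : ℤ) ≤ r * (e * P.ord s) := by
    push_cast
    have h5 : -|P.ord s| ≤ P.ord s := neg_abs_le _
    have h6 : (0 : ℤ) ≤ r * e := by positivity
    nlinarith
  have h5 : ((r * (e * (P.ord s).natAbs) : ℕ) : ℤ) ≤
      ((∑ s ∈ S, r * (e * (P.ord s).natAbs) : ℕ) : ℤ) := by exact_mod_cast h3
  set c0 := ∑ s ∈ S, r * (e * (P.ord s).natAbs)
  have hj' : (0 : ℤ) < j := by exact_mod_cast hj
  have h6 : (j : ℤ) * -(c0 : ℤ) ≤ r * (e * (j * P.ord s)) := by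
    have : (r : ℤ) * (e * (j * P.ord s)) = j * (r * (e * P.ord s)) := by ring
    rw [this]
    exact mul_le_mul_of_nonneg_left (by linarith) hj'.le
  have h7 : ((j * (C + c0 + 1) : ℕ) : ℤ) * Q.ord (η E') ≤ ((j * (C + c0 + 1) : ℕ) : ℤ) * (-1) :=
    mul_le_mul_of_nonneg_left (by omega) (by positivity)
  push_cast at h1 h7
  nlinarith

/-- **Nonvanishing.** If a variety is dominated by a normal projective variety with an effective (or
zero) anticanonical divisor, and its canonical divisor is pseudo-effective, then a multiple is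
effective. -/
theorem exists_section (hz : NormalModel z) (hnK : Algebra.trdeg ℂ K = n) (hn1 : 1 ≤ n)
    {η : (Fin n → Derivation ℂ K K) → K} (hη : IsPluri r η) (hr : 0 < r)
    (hη0 : ∀ Q, IsPrimeDivisor z Q → NoZero Q η) {G : Fin n → Derivation ℂ K K}
    (hG : η G ≠ 0) [Algebra.EssFiniteType ℂ F] (hnF : Algebra.trdeg ℂ F = n)
    (hpsef : Psef ℂ F n (fun _ => False)) :
    ∃ (M : ℕ) (Ω : (Fin n → Derivation ℂ F F) → F), 0 < M ∧ IsPluri M Ω ∧
      (∀ P : Place ℂ F, Divisorial n P → RegAt P Ω) ∧ ∃ E, Ω E ≠ 0 := by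
  have hessK : Algebra.EssFiniteType ℂ K := hz.ess
  have h1 := descend1 (k := ℂ) (K := F) (L := K) (h := 0) (M := r)
    (X := {P | Divisorial n P}) (Δ := fun _ => 0) (W := fun _ => η) (G0 := G) hnF
    (fun P hP => hP) (fun P _ => ⟨0, by simp⟩) (fun _ => hη)
    (by
      intro P hP Q e hQ _ G1 hG1
      obtain ⟨y1, E1, i0, hl⟩ := exists_loc hnF hP
      choose E1' hE1' using fun i => exists_lift (L := K) hnF (E1 i)
      have c1 : Crd (K := K) y1 E1 E1' := ⟨hl.bas, hl.dual, hE1'⟩
      have h2 := val_nonneg hz hnK hn1 hη hr hη0 hG hnF hpsef hQ (divisorial_up hQ hP) hl c1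
      by_cases h0 : η G1 = 0
      · exact Or.inl h0
      right
      have h3 := pluri_coord (c1.bas.algebraMap_comp (A := K)) (lift_dual c1.dual c1.lift) hη G1
      have h4 := pull_reg hQ hl hG1 (m := r) (ω := fun _ => 1) (b := 0)
        (Or.inr (by rw [P.ord_one]))
      rw [map_one, mul_one, mul_zero, add_zero] at h4
      have h5 : (Matrix.of fun i j => G1 i (algebraMap F K (y1 j))).det ^ r ≠ 0 := by
        intro h5
        apply h0
        rw [h3]
        exact mul_eq_zero_of_left h5 _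
      have h6 := h4.resolve_left h5
      have h7 : Q.ord (η G1) = Q.ord ((Matrix.of fun i j =>
          G1 i (algebraMap F K (y1 j))).det ^ r) + Q.ord (η E1') := by
        rw [h3]
        exact Q.ord_mul h5 (val_ne hη hG c1)
      have h8 : (r : ℤ) * (e - 1) ≤ Q.ord (η G1) := by
        rw [h7]
        linarith
      have h9 : ((r : ℤ) * (e - 1) : ℝ) ≤ (Q.ord (η G1) : ℝ) := by exact_mod_cast h8
      push_cast at h9 ⊢
      linarith)
    (by simpa using hG) algebraicIndependent_empty_type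
  obtain ⟨R, Ω, hR, hΩ, hreg, E, hE, -⟩ := h1
  refine ⟨r * R, Ω 0, by positivity, hΩ 0, fun P hP D hD => ?_, E, hE⟩
  rcases hreg P hP 0 D hD with h2 | h2
  · exact Or.inl h2
  · right
    simp only [mul_zero, neg_zero] at h2
    exact_mod_cast h2

end

end Pool.Agent.W2helper38.NU
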