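import Pool.Agent.R882.HL
import Pool.Agent.TH466.QG.Low
import Pool.Agent.W619.Y.Unir
import Pool.Agent.W2helper38.NU.Nef

/-!
Towers with both kinds of steps over varieties which are uniruled or dominated by normal projective
varieties with an effective (or zero) anticanonical `ℚ`-divisor: nonvanishing and abundance for the
images.
-/

set_option autoImplicit false
set_option linter.overlappingInstances false
set_option linter.unusedSectionVars false

namespace Pool.Agent.W2helper38.NU

open FF Module MvPolynomial Pool.Agent Pool.Agent.W602.GT Pool.Agent.Y172 Pool.Agent.R887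
open Pool.Agent.W619.PQ (IsUniruled)
open Pool.Agent.R882.HT (HasColumns GenusZero Nondegenerate IsTorusPoint Descends)
open Pool.Agent.R882.HL (IsSmooth IsGenericPoint)

/-- `K` is the function field of a normal projective variety `V` of dimension `n` such that some
multiple `- r K_V`, `r ≥ 1`, of the anticanonical divisor is effective, for instance zero: there is an
`r`-canonical form `η` without zeros at the prime divisors of `V` (with the generic point `z`). -/
def AntiEffective (n : ℕ) (K : Type) [Field K] [Algebra ℂ K] : Prop :=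
  Algebra.trdeg ℂ K = n ∧ ∃ (N : ℕ) (z : Fin (N + 1) → K), NormalModel z ∧ ∃ r : ℕ, 0 < r ∧
    ∃ η : (Fin n → Derivation ℂ K K) → K, IsPluri r η ∧ ∀ P, IsPrimeDivisor z P → NoZero P η

/-- The variety with the function field `K` is uniruled, or it is dominated, with finite degree, by a
normal projective variety with an effective (or zero) anticanonical `ℚ`-divisor. -/
def Base (n : ℕ) (K : Type) [Field K] [Algebra ℂ K] : Prop :=
  IsUniruled ℂ K n ∨
    ∃ (K' : Type) (_ : Field K') (_ : Algebra ℂ K') (_ : Algebra K K') (_ : IsScalarTower ℂ K K'),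
      FiniteDimensional K K' ∧ AntiEffective n K'

theorem descends_base (n : ℕ) : Descends (fun K _ _ => Base n K) := by
  intro K _ _ L _ _ _ _ _ h
  rcases h with h | ⟨K', i1, i2, i3, i4, i5, h⟩
  · exact Or.inl (Pool.Agent.R882.HT.descends_uniruled n K L h)
  · right
    let i6 : Algebra L K' := ((algebraMap K K').comp (algebraMap L K)).toAlgebra
    have i7 : IsScalarTower L K K' := IsScalarTower.of_algebraMap_eq fun _ => rfl
    have i8 : IsScalarTower ℂ L K' := IsScalarTower.of_algebraMap_eq fun c => by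
      change _ = algebraMap K K' (algebraMap L K (algebraMap ℂ L c))
      rw [← IsScalarTower.algebraMap_apply ℂ L K, ← IsScalarTower.algebraMap_apply ℂ K K']
    have i9 : FiniteDimensional L K' := FiniteDimensional.trans L K K'
    exact ⟨K', i1, i2, i6, i8, i9, h⟩

/-- `K` is the function field of the first variety of a tower of varieties of dimension `n` for the
number `s`, over a variety with the property `Bs`: either `K` has the property `Bs`, or

* `torus`: `K` is the function field of a component, with generic point `x`, of a nondegenerate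
  complete intersection in a torus with columns for `s`, or
* `lines`: `K` is the function field of a component, with generic point `x`, of a smooth complete
  intersection of hypersurfaces of multidegrees `d k` in a product of projective lines, with
  canonical divisor `O(m i)`, `s ≤ m i + 1` for all `i ≠ i0`,

and the subfield generated by the monomials `t l = x ^ (w l)`, where `K = ℂ(t)(x ^ v)`, or by the
coordinates `x i`, `i ≠ i0`, over which `K` has degree `b`, is the function field of the first
variety of a tower for `s / b`. -/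
inductive Mixed (n : ℕ) (Bs : ∀ (K : Type) [Field K] [Algebra ℂ K], Prop) :
    ∀ (K : Type) [Field K] [Algebra ℂ K], ℕ → Prop
  | base {K : Type} [Field K] [Algebra ℂ K] {s : ℕ} (h : Bs K) : Mixed n Bs K s
  | torus {K : Type} [Field K] [Algebra ℂ K] {s q N : ℕ} (f : Fin q → (Fin (n + q) → ℤ) →₀ ℂ)
      (nondeg : Nondegenerate f) (x : Fin (n + q) → K) (point : IsTorusPoint f x)
      (v : Fin (n + q) → ℤ) (w : Fin N → Fin (n + q) → ℤ) (t : Fin N → K)
      (mono : ∀ l, t l = R885.mono x (w l))
      (fin : FiniteDimensional (IntermediateField.adjoin ℂ (Set.range t)) K)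
      (prim : IntermediateField.adjoin (IntermediateField.adjoin ℂ (Set.range t))
        {R885.mono x v} = ⊤)
      (col : HasColumns f v w
        (Module.finrank (IntermediateField.adjoin ℂ (Set.range t)) K) s)
      (below : Mixed n Bs (IntermediateField.adjoin ℂ (Set.range t))
        (s / Module.finrank (IntermediateField.adjoin ℂ (Set.range t)) K)) :
      Mixed n Bs K s
  | lines {K : Type} [Field K] [Algebra ℂ K] {s q : ℕ} (F : Fin q → MvPolynomial (Fin (n + q)) ℂ)
      (d : Fin q → Fin (n + q) → ℕ) (deg : ∀ k i, (F k).degreeOf i ≤ d k i)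
      (m : Fin (n + q) → ℕ) (canonical : ∀ i, ∑ k, d k i = m i + 2) (smooth : IsSmooth d F)
      (x : Fin (n + q) → K) (point : IsGenericPoint n F x) (i0 : Fin (n + q))
      (positive : ∀ i, i ≠ i0 → s ≤ m i + 1)
      (below : Mixed n Bs (IntermediateField.adjoin ℂ (x '' {i0}ᶜ))
        (s / Module.finrank (IntermediateField.adjoin ℂ (x '' {i0}ᶜ)) K)) :
      Mixed n Bs K s

/-- **Images of towers.** -/
theorem mixed_aux {n : ℕ} (hn : 1 ≤ n) {Bs : ∀ (K : Type) [Field K] [Algebra ℂ K], Prop}
    (hB : Descends Bs) {K : Type} [i1 : Field K] [i2 : Algebra ℂ K] {s : ℕ}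
    (h : Mixed n Bs K s) : Algebra.trdeg ℂ K = (n : ℕ) →
    ∀ (L : Type) [Field L] [Algebra ℂ L] [Algebra L K] [IsScalarTower ℂ L K]
      [FiniteDimensional L K],
      (s = Module.finrank L K → GenusZero L n → Bs L) ∧
      (s = 2 * Module.finrank L K → ¬ GeneralType ℂ L n → Bs L) := by
  induction h with
  | @base K _ _ s h =>
    intro _ L _ _ _ _ _
    exact ⟨fun _ _ => hB K L h, fun _ _ => hB K L h⟩
  | @torus K _ _ s q N f nondeg x point v w t mono fin prim col below ih =>
    intro hK L _ _ _ _ _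
    obtain ⟨hbase, hadj, hpos⟩ := Pool.Agent.R882.LT.col_positive nondeg point.1 point.2.1
      point.2.2 hK mono prim
    obtain ⟨h1, h2⟩ := Pool.Agent.R882.Over.factors_step hn hbase L
    have hfac : Pool.Agent.R882.Over.FactorsThrough L (Fin.cons 1 t : Fin (N + 1) → K) →
        ∀ g : L, algebraMap L K g ∈ IntermediateField.adjoin ℂ (Set.range t) := by
      unfold Pool.Agent.R882.Over.FactorsThrough
      rw [hadj]
      exact id
    have hK' : Algebra.trdeg ℂ (IntermediateField.adjoin ℂ (Set.range t)) = (n : ℕ) :=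
      Pool.Agent.Y184.NT.trdeg_below (K := K) hK
    have hb : 0 < Module.finrank (IntermediateField.adjoin ℂ (Set.range t)) K :=
      Module.finrank_pos
    refine ⟨fun hs hg => ?_, fun hs hg => ?_⟩
    · have h3 := hfac (h1 (hs ▸ hpos s col) hg)
      obtain ⟨j1, j2, j3, hdeg⟩ := Pool.Agent.R882.LT.factor_alg (N := 0) L h3
      refine (ih hK' L).1 ?_ hg
      rw [hs, hdeg, Nat.mul_div_cancel _ hb]
    · have h3 := hfac (h2 (hs ▸ hpos s col) hg)
      obtain ⟨j1, j2, j3, hdeg⟩ := Pool.Agent.R882.LT.factor_alg (N := 0) L h3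
      refine (ih hK' L).2 ?_ hg
      rw [hs, hdeg, ← mul_assoc, Nat.mul_div_cancel _ hb]
  | @lines K _ _ s q F d deg m canonical smooth x point i0 positive below ih =>
    intro hK L _ _ _ _ _
    have hr : 0 < Module.finrank L K := Module.finrank_pos
    have hmain : 1 ≤ s → ∀ _ : (∃ (N : ℕ) (t : Fin N → K), IntermediateField.adjoin ℂ (Set.range t)
        = IntermediateField.adjoin ℂ (x '' {i0}ᶜ) ∧ Pool.Agent.R882.Over.IsBase n t ∧
        Pool.Agent.R882.Over.FactorsThrough L t),
        ∃ (_ : Algebra L (IntermediateField.adjoin ℂ (x '' {i0}ᶜ)))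
          (_ : IsScalarTower ℂ L (IntermediateField.adjoin ℂ (x '' {i0}ᶜ)))
          (_ : FiniteDimensional L (IntermediateField.adjoin ℂ (x '' {i0}ᶜ))),
          Module.finrank L K = Module.finrank L (IntermediateField.adjoin ℂ (x '' {i0}ᶜ)) *
            Module.finrank (IntermediateField.adjoin ℂ (x '' {i0}ᶜ)) K ∧
          Algebra.trdeg ℂ (IntermediateField.adjoin ℂ (x '' {i0}ᶜ)) = (n : ℕ) ∧
          0 < Module.finrank (IntermediateField.adjoin ℂ (x '' {i0}ᶜ)) K := by
      rintro hs1 ⟨N, t, ht, hb, hfac⟩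
      obtain ⟨hfin, -⟩ := Pool.Agent.R882.HL.lines_step hn (by simp) canonical
        positive deg smooth point (s := s) hs1
      have h3 : ∀ g : L, algebraMap L K g ∈ IntermediateField.adjoin ℂ (x '' {i0}ᶜ) := by
        intro g
        rw [← ht]
        exact hfac g
      obtain ⟨j1, j2, j3, hdeg⟩ := Pool.Agent.R882.LT.factor_alg (N := 0) L h3
      exact ⟨j1, j2, j3, hdeg, Pool.Agent.Y184.NT.trdeg_below (K := K) hK, Module.finrank_pos⟩
    refine ⟨fun hs hg => ?_, fun hs hg => ?_⟩
    · have hs1 : 1 ≤ s := by omega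
      obtain ⟨hfin, N, t, ht, hb, hp⟩ := Pool.Agent.R882.HL.lines_step hn (by simp) canonical
        positive deg smooth point (s := s) hs1
      obtain ⟨h1, -⟩ := Pool.Agent.R882.Over.factors_step hn hb L
      obtain ⟨j1, j2, j3, hdeg, hK', hpos⟩ := hmain hs1 ⟨N, t, ht, hb, h1 (hs ▸ hp) hg⟩
      refine (ih hK' L).1 ?_ hg
      rw [hs, hdeg, Nat.mul_div_cancel _ hpos]
    · have hs1 : 1 ≤ s := by omega
      obtain ⟨hfin, N, t, ht, hb, hp⟩ := Pool.Agent.R882.HL.lines_step hn (by simp) canonical
        positive deg smooth point (s := s) hs1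
      obtain ⟨-, h2⟩ := Pool.Agent.R882.Over.factors_step hn hb L
      obtain ⟨j1, j2, j3, hdeg, hK', hpos⟩ := hmain hs1 ⟨N, t, ht, hb, h2 (hs ▸ hp) hg⟩
      refine (ih hK' L).2 ?_ hg
      rw [hs, hdeg, ← mul_assoc, Nat.mul_div_cancel _ hpos]

section

variable {n : ℕ} {L : Type} [Field L] [Algebra ℂ L]

/-- a form which is not zero -/
theorem exists_form {K : Type} [Field K] [Algebra ℂ K] {N : ℕ} {z : Fin (N + 1) → K}
    (hz : NormalModel z) (hn : Algebra.trdeg ℂ K = n) (hn1 : 1 ≤ n)
    {η : (Fin n → Derivation ℂ K K) → K} (hη0 : ∀ Q, IsPrimeDivisor z Q → NoZero Q η) :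
    ∃ G, η G ≠ 0 := by
  have hess := hz.ess
  obtain ⟨Q0, -⟩ := exists_divisorial hn hn1
  obtain ⟨Q1, hQ1, -⟩ := exists_through hz Q0
  obtain ⟨G, -, hG, -⟩ := hη0 Q1 hQ1
  exact ⟨G, hG⟩

theorem kod_of_base [Algebra.EssFiniteType ℂ L] (hn1 : 1 ≤ n) (hL : Algebra.trdeg ℂ L = n)
    (h : Base n L) (hpsef : Psef ℂ L n (fun _ => False)) :
    KodGe ℂ L n (fun _ => False) 0 ∧ ¬ KodGe ℂ L n (fun _ => False) 1 := by
  rcases h with h | ⟨K, _, _, _, _, _, hK, N, z, hz, r, hr, η, hη, hη0⟩
  · exact absurd (((Pool.Agent.TH466.QG.psef_iff n).1 hpsef))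
      (Pool.Agent.W619.Y.uniruled_neg n hL h).1
  · obtain ⟨G, hG⟩ := exists_form hz hK hn1 hη0
    obtain ⟨M, Ω, hM, hΩ, hreg, E, hE⟩ := exists_section hz hK hn1 hη hr hη0 hG hL hpsef
    refine ⟨⟨M, hM, fun _ => Ω, fun _ => ⟨hΩ, fun P hP D hD => hreg P hP D fun i =>
      reg_of_log (hD i), fun P hP _ => hreg P hP⟩, E, hE, algebraicIndependent_empty_type⟩, ?_⟩
    exact kod_le hz hK hη hr hη0 hL

theorem torsion_of_base (hn1 : 1 ≤ n) (hL : Algebra.trdeg ℂ L = n)
    (h : Base n L) {N : ℕ} {y : Fin (N + 1) → L} (hy : NormalModel y) (hcan : Canonical y n)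
    (hnef : CanonicalNef y n) : ∃ (M : ℕ) (Ω : (Fin n → Derivation ℂ L L) → L), 0 < M ∧
      IsPluri M Ω ∧ ∀ P, IsPrimeDivisor y P → OrdEq P Ω 0 := by
  have hess := hy.ess
  rcases h with h | ⟨K, _, _, _, _, _, hK, N', z, hz, r, hr, η, hη, hη0⟩
  · exact absurd (((Pool.Agent.TH466.QG.psef_iff n).1 (psef_of_nef hy hL hn1 hcan hnef)))
      (Pool.Agent.W619.Y.uniruled_neg n hL h).1
  · exact torsion_of_nef hz hK hn1 hη hr hη0 hL hy hcan hnef

end

end Pool.Agent.W2helper38.NU
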